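import Pool.Agent.Run7.h426.DOM.Iface

/-!
# Pieces L2 and P of project DOM (helper426): first part, L2
-/

set_option autoImplicit false

namespace Pool.Agent.Run7.h270.DOM

open Finset Run7.h426.DOM

theorem mem_U {v : ℕ} {I : Finset ℕ} {E : ℕ → Finset ℕ} : v ∈ U I E ↔ ∃ i ∈ I, v ∈ E i := by
  simp [U]

theorem avoid {S B : Finset ℕ} {f : ℕ → ℕ} (hf : ∀ x ∈ S, ∀ y ∈ S, f x = f y → x = y)
    (hc : B.card < S.card) : ∃ x ∈ S, f x ∉ B := by
  by_contra hcon
  push Not at hcon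
  have h1 : S.image f ⊆ B := by
    intro a ha
    obtain ⟨x, hx, rfl⟩ := mem_image.1 ha
    exact hcon x hx
  have h2 : (S.image f).card = S.card := card_image_of_injOn (fun x hx y hy h => hf x hx y hy h)
  have := card_le_card h1
  omega

theorem t_L2 : S_L2 := by
  intro I E hP hL hSz hLin hty hex
  obtain ⟨v, hv4, hv3⟩ := hex
  have hw := sum_wt (v := v) hSz
  rw [hv4, hv3] at hw
  obtain ⟨g, hg⟩ := card_eq_one.1 hv3
  obtain ⟨k1, k2, hk12, hk⟩ := card_eq_two.1 hv4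
  have hgm : g ∈ I.filter (fun i => v ∈ E i ∧ (E i).card = 3) := by rw [hg]; simp
  have hk1m : k1 ∈ I.filter (fun i => v ∈ E i ∧ (E i).card = 4) := by rw [hk]; simp
  have hk2m : k2 ∈ I.filter (fun i => v ∈ E i ∧ (E i).card = 4) := by rw [hk]; simp
  obtain ⟨hgI, hgv, hgc⟩ := mem_filter.1 hgm
  obtain ⟨hk1I, hk1v, hk1c⟩ := mem_filter.1 hk1m
  obtain ⟨hk2I, hk2v, hk2c⟩ := mem_filter.1 hk2m
  have hall : ∀ i ∈ I, v ∈ E i → i = g ∨ i = k1 ∨ i = k2 := by
    intro i hi hvi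
    rcases hSz i hi with h | h
    · have : i ∈ I.filter (fun i => v ∈ E i ∧ (E i).card = 3) := mem_filter.2 ⟨hi, hvi, h⟩
      rw [hg, mem_singleton] at this
      exact Or.inl this
    · have : i ∈ I.filter (fun i => v ∈ E i ∧ (E i).card = 4) := mem_filter.2 ⟨hi, hvi, h⟩
      rw [hk, mem_insert, mem_singleton] at this
      exact Or.inr this
  have hvU : v ∈ U I E := mem_U.2 ⟨g, hgI, hgv⟩
  by_cases hA : ∃ x ∈ U I E, x ≠ v ∧ ∀ i ∈ I, x ∈ E i → v ∈ E i
  · obtain ⟨x, hx, hxv, hxi⟩ := hA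
    refine take (s := 0) (g := 1) v {x} hvU ?_ ?_ ?_ ?_ (hP _ _ (U_tk_lt hvU) hSz.tk.sz)
    · rw [mem_singleton]
      exact hxv.symm
    · intro a ha
      rw [mem_singleton.1 ha]
      exact hx
    · intro a ha i hi hai
      rw [mem_singleton.1 ha] at hai
      exact hxi i hi hai
    · rw [hw, card_singleton]
      omega
  push Not at hA
  by_cases hB : Dft (tk v I E) E
  · refine take (s := 1) (g := 0) v ∅ hvU (notMem_empty _) ?_ ?_ ?_ (hL _ _ (U_tk_lt hvU) hSz.tk hLin.tk hB)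
    · intro a ha
      exact absurd ha (notMem_empty _)
    · intro a ha
      exact absurd ha (notMem_empty _)
    · rw [hw, card_empty]
  have hf : ∀ x, x ≠ v → (∃ i ∈ I, v ∈ E i ∧ x ∈ E i) → ∃ j, j ∈ I ∧ v ∉ E j ∧ x ∈ E j ∧
      (E j).card = 3 ∧ ∀ k ∈ I, v ∉ E k → k ≠ j → ∀ a ∈ E j, a ∉ E k := by
    rintro x hxv ⟨i, hi, hvi, hxi⟩
    obtain ⟨j, hj, hxj, hvj⟩ := hA x (mem_U.2 ⟨i, hi, hxi⟩) hxv
    have hjt : j ∈ tk v I E := mem_filter.2 ⟨hj, hvj⟩
    rcases hSz j hj with h3 | h4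
    · refine ⟨j, hj, hvj, hxj, h3, ?_⟩
      intro k hk hvk hkj a haj hak
      exact hB (Or.inr ⟨j, hjt, h3, k, mem_filter.2 ⟨hk, hvk⟩, hkj.symm, a, haj, hak⟩)
    · exfalso
      have hd3 : ((tk v I E).filter (fun j => x ∈ E j)).card = 3 := by
        by_contra hne
        exact hB (Or.inl ⟨j, hjt, h4, x, hxj, hne⟩)
      have hlt : ((tk v I E).filter (fun j => x ∈ E j)).card < (I.filter (fun j => x ∈ E j)).card := by
        apply card_lt_card
        refine ⟨filter_subset_filter _ (filter_subset _ _), fun hsub => ?_⟩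
        have h5 := hsub (mem_filter.2 ⟨hi, hxi⟩)
        exact (mem_filter.1 (mem_filter.1 h5).1).2 hvi
      have h6 := deg_eq (v := x) hSz
      have h7 := hty x
      omega
  choose! f hfI hfv hfx hf3 hfd using hf
  have hinj : ∀ e ∈ I, v ∈ E e → ∀ x ∈ (E e).erase v, ∀ x' ∈ (E e).erase v, f x = f x' → x = x' := by
    intro e he hve x hx x' hx' hxx
    obtain ⟨hx1, hx2⟩ := mem_erase.1 hx
    obtain ⟨hx1', hx2'⟩ := mem_erase.1 hx'
    have a1 := hfx x hx1 ⟨e, he, hve, hx2⟩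
    have a2 := hfx x' hx1' ⟨e, he, hve, hx2'⟩
    have a3 := hfv x hx1 ⟨e, he, hve, hx2⟩
    have a4 := hfI x hx1 ⟨e, he, hve, hx2⟩
    rw [← hxx] at a2
    have a5 : e ≠ f x := by
      rintro h
      rw [← h] at a3
      exact a3 hve
    exact hLin e he (f x) a4 a5 x hx2 a1 x' hx2' a2
  obtain ⟨r, hr⟩ : ((E g).erase v).Nonempty := by
    rw [← card_pos, card_erase_of_mem hgv, hgc]
    omega
  obtain ⟨x, hx, hxr⟩ := avoid (S := (E k1).erase v) (B := {f r}) (hinj k1 hk1I hk1v) (by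
    rw [card_erase_of_mem hk1v, hk1c, card_singleton]
    omega)
  obtain ⟨y, hy, hyr⟩ := avoid (S := (E k2).erase v) (B := {f r, f x}) (hinj k2 hk2I hk2v) (by
    rw [card_erase_of_mem hk2v, hk2c]
    have := card_le_two (a := f r) (b := f x)
    omega)
  rw [mem_singleton] at hxr
  simp only [mem_insert, mem_singleton, not_or] at hyr
  obtain ⟨hyr, hyx⟩ := hyr
  obtain ⟨hr1, hr2⟩ := mem_erase.1 hr
  obtain ⟨hx1, hx2⟩ := mem_erase.1 hx
  obtain ⟨hy1, hy2⟩ := mem_erase.1 hy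
  have er : ∃ i ∈ I, v ∈ E i ∧ r ∈ E i := ⟨g, hgI, hgv, hr2⟩
  have ex : ∃ i ∈ I, v ∈ E i ∧ x ∈ E i := ⟨k1, hk1I, hk1v, hx2⟩
  have ey : ∃ i ∈ I, v ∈ E i ∧ y ∈ E i := ⟨k2, hk2I, hk2v, hy2⟩
  have r1 := hfI r hr1 er
  have r2 := hfv r hr1 er
  have r3 := hfx r hr1 er
  have r4 := hf3 r hr1 er
  have r5 := hfd r hr1 er
  have x1 := hfI x hx1 ex
  have x2 := hfv x hx1 ex
  have x3 := hfx x hx1 ex
  have x4 := hf3 x hx1 ex
  have x5 := hfd x hx1 ex
  have y1 := hfI y hy1 ey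
  have y2 := hfv y hy1 ey
  have y3 := hfx y hy1 ey
  have y4 := hf3 y hy1 ey
  have y5 := hfd y hy1 ey
  -- the set of the vertices
  have d1 : Disjoint (E (f r)) (E (f x)) := by
    rw [disjoint_left]
    intro a ha
    exact r5 (f x) x1 x2 hxr a ha
  have d2 : Disjoint (E (f r) ∪ E (f x)) (E (f y)) := by
    rw [disjoint_left]
    intro a ha
    rcases mem_union.1 ha with ha | ha
    · exact r5 (f y) y1 y2 hyr a ha
    · exact x5 (f y) y1 y2 hyx a ha
  have hKc : (insert v ((E (f r) ∪ E (f x)) ∪ E (f y))).card = 10 := by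
    rw [card_insert_of_notMem, card_union_of_disjoint d2, card_union_of_disjoint d1, r4, x4, y4]
    simp only [mem_union, not_or]
    exact ⟨⟨r2, x2⟩, y2⟩
  have hthru : ∀ i ∈ I, v ∈ E i → r ∈ E i ∨ x ∈ E i ∨ y ∈ E i := by
    intro i hi hvi
    rcases hall i hi hvi with rfl | rfl | rfl
    · exact Or.inl hr2
    · exact Or.inr (Or.inl hx2)
    · exact Or.inr (Or.inr hy2)
  have hdel := W_del (I := I) (E := E) (fun i => r ∈ E i ∨ x ∈ E i ∨ y ∈ E i)
    (insert v ((E (f r) ∪ E (f x)) ∪ E (f y))) (by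
      intro a ha
      simp only [mem_insert, mem_union] at ha
      rcases ha with rfl | (ha | ha) | ha
      · exact hvU
      · exact mem_U.2 ⟨_, r1, ha⟩
      · exact mem_U.2 ⟨_, x1, ha⟩
      · exact mem_U.2 ⟨_, y1, ha⟩) (by
      intro a ha i hi hai
      by_cases hvi : v ∈ E i
      · exact hthru i hi hvi
      simp only [mem_insert, mem_union] at ha
      rcases ha with rfl | (ha | ha) | ha
      · exact absurd hai hvi
      · by_cases hie : i = f r
        · rw [hie]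
          exact Or.inl r3
        · exact absurd hai (r5 i hi hvi hie a ha)
      · by_cases hie : i = f x
        · rw [hie]
          exact Or.inr (Or.inl x3)
        · exact absurd hai (x5 i hi hvi hie a ha)
      · by_cases hie : i = f y
        · rw [hie]
          exact Or.inr (Or.inr y3)
        · exact absurd hai (y5 i hi hvi hie a ha))
  rw [hKc] at hdel
  have hsum : 16 ≤ ∑ i ∈ I with r ∈ E i ∨ x ∈ E i ∨ y ∈ E i, wt (E i).card := by
    have hsub : ({g, k1, k2, f r, f x, f y} : Finset ℕ) ⊆ I.filter (fun i => r ∈ E i ∨ x ∈ E i ∨ y ∈ E i) := by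
      intro i hi
      simp only [mem_insert, mem_singleton] at hi
      rw [mem_filter]
      rcases hi with rfl | rfl | rfl | rfl | rfl | rfl
      · exact ⟨hgI, Or.inl hr2⟩
      · exact ⟨hk1I, Or.inr (Or.inl hx2)⟩
      · exact ⟨hk2I, Or.inr (Or.inr hy2)⟩
      · exact ⟨r1, Or.inl r3⟩
      · exact ⟨x1, Or.inr (Or.inl x3)⟩
      · exact ⟨y1, Or.inr (Or.inr y3)⟩
    have hle := sum_le_sum_of_subset (f := fun i => wt (E i).card) hsub
    have n1 : g ≠ k1 := by rintro rfl; omega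
    have n2 : g ≠ k2 := by rintro rfl; omega
    have nv : ∀ e j, v ∈ E e → v ∉ E j → e ≠ j := by
      rintro e j he hj rfl
      exact hj he
    have hs : ∑ i ∈ ({g, k1, k2, f r, f x, f y} : Finset ℕ), wt (E i).card = 16 := by
      rw [sum_insert, sum_insert, sum_insert, sum_insert, sum_insert, sum_singleton, hgc, hk1c, hk2c, r4,
        x4, y4]
      · rfl
      · simp only [mem_singleton]
        exact fun h => hyx h.symm
      · simp only [mem_insert, mem_singleton, not_or]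
        exact ⟨fun h => hxr h.symm, fun h => hyr h.symm⟩
      · simp only [mem_insert, mem_singleton, not_or]
        exact ⟨nv _ _ hk2v r2, nv _ _ hk2v x2, nv _ _ hk2v y2⟩
      · simp only [mem_insert, mem_singleton, not_or]
        exact ⟨hk12, nv _ _ hk1v r2, nv _ _ hk1v x2, nv _ _ hk1v y2⟩
      · simp only [mem_insert, mem_singleton, not_or]
        exact ⟨n1, n2, nv _ _ hgv r2, nv _ _ hgv x2, nv _ _ hgv y2⟩
    omega
  refine step (s := 0) (J := I.filter (fun i => ¬ (r ∈ E i ∨ x ∈ E i ∨ y ∈ E i))) (E' := E) {r, x, y} ?_ ?_ ?_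
  · intro i hi
    by_cases h : r ∈ E i ∨ x ∈ E i ∨ y ∈ E i
    · left
      rcases h with h | h | h
      · exact ⟨r, h, by simp⟩
      · exact ⟨x, h, by simp⟩
      · exact ⟨y, h, by simp⟩
    · exact Or.inr ⟨mem_filter.2 ⟨hi, h⟩, subset_rfl⟩
  · have := card_le_three (a := r) (b := x) (c := y)
    omega
  · apply hP
    · apply card_lt_card
      refine ⟨?_, fun hsub => ?_⟩
      · intro a ha
        obtain ⟨i, hi, hai⟩ := mem_U.1 ha
        exact mem_U.2 ⟨i, (mem_filter.1 hi).1, hai⟩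
      · obtain ⟨i, hi, hai⟩ := mem_U.1 (hsub hvU)
        exact (mem_filter.1 hi).2 (hthru i (mem_filter.1 hi).1 hai)
    · intro i hi
      exact hSz.sz i (mem_filter.1 hi).1

end Pool.Agent.Run7.h270.DOM
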