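import Pool.Agent.Run7.h426.DOM.Iface

/-!
# Pieces L2 and P of project DOM (helper426): second part, P
-/

set_option autoImplicit false

namespace Pool.Agent.Run7.h270.DOMP

open Finset Run7.h426.DOM

theorem mem_U {v : ℕ} {I : Finset ℕ} {E : ℕ → Finset ℕ} : v ∈ U I E ↔ ∃ i ∈ I, v ∈ E i := by
  simp [U]

theorem sum_wt' {v : ℕ} {I : Finset ℕ} {E : ℕ → Finset ℕ} (h : Sz34 I E) :
    ∑ i ∈ I with v ∈ E i, wt ((E i).card - 1) = 3 * dg 4 v I E + 5 * dg 3 v I E := by
  have h1 : ∀ i ∈ I.filter (fun i => v ∈ E i), wt ((E i).card - 1) =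
      3 * (if (E i).card = 4 then 1 else 0) + 5 * (if (E i).card = 3 then 1 else 0) := by
    intro i hi
    rcases h i (mem_filter.1 hi).1 with h | h <;> simp [h, wt]
  rw [sum_congr rfl h1, sum_add_distrib, ← mul_sum, ← mul_sum, ← card_filter, ← card_filter,
    filter_filter, filter_filter]
  rfl

theorem wt_two (s : ℕ) : 2 ≤ wt s := by
  unfold wt
  split_ifs <;> omega

theorem dg_pos {s v i : ℕ} {I : Finset ℕ} {E : ℕ → Finset ℕ} (hi : i ∈ I) (hv : v ∈ E i)
    (hs : (E i).card = s) : 1 ≤ dg s v I E := card_pos.2 ⟨i, mem_filter.2 ⟨hi, hv, hs⟩⟩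

theorem one_sum {v i : ℕ} {I : Finset ℕ} {E : ℕ → Finset ℕ} (hi : i ∈ I) (hv : v ∈ E i) :
    wt (E i).card ≤ ∑ i ∈ I with v ∈ E i, wt (E i).card :=
  single_le_sum (f := fun i => wt (E i).card) (fun _ _ => Nat.zero_le _) (mem_filter.2 ⟨hi, hv⟩)

theorem pair_sum {v i j : ℕ} {I : Finset ℕ} {E : ℕ → Finset ℕ} (hi : i ∈ I) (hj : j ∈ I) (hij : i ≠ j)
    (hvi : v ∈ E i) (hvj : v ∈ E j) :
    wt (E i).card + wt (E j).card ≤ ∑ i ∈ I with v ∈ E i, wt (E i).card := by
  have hsub : ({i, j} : Finset ℕ) ⊆ I.filter (fun i => v ∈ E i) := by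
    intro a ha
    simp only [mem_insert, mem_singleton] at ha
    rcases ha with rfl | rfl
    · exact mem_filter.2 ⟨hi, hvi⟩
    · exact mem_filter.2 ⟨hj, hvj⟩
  have hle := sum_le_sum_of_subset (f := fun i => wt (E i).card) hsub
  rw [sum_pair hij] at hle
  exact hle

theorem two_edges {v i j : ℕ} {I : Finset ℕ} {E : ℕ → Finset ℕ}
    (hd : (I.filter (fun j => v ∈ E j)).card ≤ 2) (hi : i ∈ I) (hj : j ∈ I) (hij : i ≠ j)
    (hvi : v ∈ E i) (hvj : v ∈ E j) : ∀ k ∈ I, v ∈ E k → k = i ∨ k = j := by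
  intro k hk hvk
  by_contra hcon
  push Not at hcon
  have hsub : ({i, j, k} : Finset ℕ) ⊆ I.filter (fun j => v ∈ E j) := by
    intro a ha
    simp only [mem_insert, mem_singleton] at ha
    rcases ha with rfl | rfl | rfl
    · exact mem_filter.2 ⟨hi, hvi⟩
    · exact mem_filter.2 ⟨hj, hvj⟩
    · exact mem_filter.2 ⟨hk, hvk⟩
  have h1 := card_le_card hsub
  rw [card_eq_three.2 ⟨i, j, k, hij, hcon.1.symm, hcon.2.symm, rfl⟩] at h1
  omega

theorem Sz_sh {v : ℕ} {I : Finset ℕ} {E : ℕ → Finset ℕ} (h : Sz34 I E) : Sz I (sh v E) := by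
  intro i hi
  have h1 : (sh v E i).card ≤ (E i).card := card_le_card (erase_subset _ _)
  have h2 : (E i).card - 1 ≤ (sh v E i).card := pred_card_le_card_erase
  rcases h i hi with h | h <;> omega

theorem t_P : S_P := by
  intro I E hP hL hyp hSz
  -- (1), (2)
  by_cases h1 : ∃ v ∈ U I E, 7 ≤ ∑ i ∈ I with v ∈ E i, wt (E i).card
  · obtain ⟨v, hv, hw⟩ := h1
    refine take (s := 0) (g := 0) v ∅ hv (notMem_empty _) (fun a ha => absurd ha (notMem_empty _))
      (fun a ha => absurd ha (notMem_empty _)) ?_ (hP _ _ (U_tk_lt hv) hSz.tk)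
    rw [card_empty]
    omega
  push Not at h1
  -- (3)
  by_cases h2 : ∃ i ∈ I, (E i).card = 2
  · obtain ⟨i, hi, hc⟩ := h2
    obtain ⟨a, b, hab, hE⟩ := card_eq_two.1 hc
    have ha : a ∈ E i := by rw [hE]; simp
    have hb : b ∈ E i := by rw [hE]; simp
    have hwt : wt (E i).card = 5 := by rw [hc]; rfl
    have haU : a ∈ U I E := mem_U.2 ⟨i, hi, ha⟩
    have hbU : b ∈ U I E := mem_U.2 ⟨i, hi, hb⟩
    have honly : ∀ j ∈ I, b ∈ E j → a ∈ E j := by
      intro j hj hbj
      by_cases hij : i = j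
      · rw [← hij]
        exact ha
      · exfalso
        have e1 := pair_sum hi hj hij hb hbj
        have e2 := h1 b hbU
        have e3 := wt_two (E j).card
        omega
    refine take (s := 0) (g := 0) a {b} haU ?_ ?_ ?_ ?_ (hP _ _ (U_tk_lt haU) hSz.tk)
    · rw [mem_singleton]
      exact hab
    · intro c hc
      rw [mem_singleton.1 hc]
      exact hbU
    · intro c hc j hj hcj
      rw [mem_singleton.1 hc] at hcj
      exact honly j hj hcj
    · rw [card_singleton]
      have := one_sum hi ha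
      omega
  push Not at h2
  have hS : Sz34 I E := by
    intro i hi
    have e1 := hSz i hi
    have e2 := h2 i hi
    have e3 : (E i).card ≠ 1 := by
      intro h
      obtain ⟨v, hv⟩ := card_eq_one.1 h
      have hvm : v ∈ E i := by rw [hv]; simp
      have e4 := one_sum hi hvm
      have e5 := h1 v (mem_U.2 ⟨i, hi, hvm⟩)
      have e6 : wt (E i).card = 7 := by rw [h]; rfl
      omega
    omega
  have hsw : ∀ v ∈ U I E, 2 * dg 4 v I E + 3 * dg 3 v I E ≤ 6 := by
    intro v hv
    have e1 := h1 v hv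
    rw [sum_wt hS] at e1
    omega
  have hdp : ∀ v ∈ U I E, 1 ≤ dg 4 v I E + dg 3 v I E := by
    intro v hv
    obtain ⟨i, hi, hvi⟩ := mem_U.1 hv
    rcases hS i hi with h | h
    · have := dg_pos hi hvi h
      omega
    · have := dg_pos hi hvi h
      omega
  -- (4)
  by_cases h4 : ∃ v ∈ U I E, dg 4 v I E + 2 * dg 3 v I E ≤ 2 ∧ (dg 4 v I E = 0 → dg 3 v I E ≤ 1)
  · obtain ⟨v, hv, hd1, hd2⟩ := h4
    refine shrink (s := 0) (g := 0) (c := 0) v hv ?_ (hP _ _ (U_sh_lt hv) (Sz_sh hS))
    rw [sum_wt hS, sum_wt' hS]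
    have := hdp v hv
    omega
  have hty : Ty I E := by
    intro v hv
    have e1 := hsw v hv
    have e2 := hdp v hv
    by_contra hcon
    apply h4
    refine ⟨v, hv, ?_, ?_⟩ <;> omega
  -- (5)
  by_cases h5 : Lin I E
  swap
  · unfold Lin at h5
    push Not at h5
    obtain ⟨i, hi, j, hj, hij, v, hvi, hvj, w, hwi, hwj, hvw⟩ := h5
    have hvU : v ∈ U I E := mem_U.2 ⟨i, hi, hvi⟩
    have hwU : w ∈ U I E := mem_U.2 ⟨i, hi, hwi⟩
    have key : ∀ a b : ℕ, a ∈ E i → a ∈ E j → b ∈ E i → b ∈ E j → a ≠ b →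
        (I.filter (fun k => b ∈ E k)).card ≤ 2 → Sl 0 I E := by
      intro a b hai haj hbi hbj hab hd
      have haU : a ∈ U I E := mem_U.2 ⟨i, hi, hai⟩
      have h6 := two_edges hd hi hj hij hbi hbj
      refine take (s := 0) (g := 0) a {b} haU ?_ ?_ ?_ ?_ (hP _ _ (U_tk_lt haU) hSz.tk)
      · rw [mem_singleton]
        exact hab
      · intro c hc
        rw [mem_singleton.1 hc]
        exact mem_U.2 ⟨i, hi, hbi⟩
      · intro c hc k hk hck
        rw [mem_singleton.1 hc] at hck
        rcases h6 k hk hck with rfl | rfl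
        · exact hai
        · exact haj
      · rw [card_singleton, sum_wt hS]
        rcases hty a haU with h | h | h <;> omega
    have dv := deg_eq (v := v) hS
    have dw := deg_eq (v := w) hS
    rcases hty w hwU with hw3 | hw3 | hw3
    · rcases hty v hvU with hv3 | hv3 | hv3
      · -- both of type (3,0)
        by_cases h7 : ∃ k ∈ tk v I E, w ∈ E k
        · obtain ⟨k, hk, hwk⟩ := h7
          have hkI := (mem_filter.1 hk).1
          have hkv := (mem_filter.1 hk).2
          have hwJ : w ∈ U (tk v I E) E := mem_U.2 ⟨k, hk, hwk⟩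
          have hSJ : Sz34 (tk v I E) E := hS.tk
          have g1 := W_tk v ∅ hvU (notMem_empty _) (fun a ha => absurd ha (notMem_empty _))
            (fun a ha => absurd ha (notMem_empty _))
          rw [card_empty, sum_wt hS] at g1
          have g2 := W_sh w hwJ
          rw [sum_wt hSJ, sum_wt' hSJ] at g2
          have g3 : dg 3 w (tk v I E) E = 0 := by
            have : dg 3 w (tk v I E) E ≤ dg 3 w I E :=
              card_le_card (filter_subset_filter _ (filter_subset _ _))
            omega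
          have g4 : dg 4 w (tk v I E) E ≤ 1 := by
            have hsub : (tk v I E).filter (fun k => w ∈ E k ∧ (E k).card = 4) ⊆
                ((I.filter (fun k => w ∈ E k)).erase i).erase j := by
              intro l hl
              obtain ⟨hl1, hl2, hl3⟩ := mem_filter.1 hl
              obtain ⟨hl4, hl5⟩ := mem_filter.1 hl1
              refine mem_erase.2 ⟨?_, mem_erase.2 ⟨?_, mem_filter.2 ⟨hl4, hl2⟩⟩⟩
              · rintro rfl
                exact hl5 hvj
              · rintro rfl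
                exact hl5 hvi
            have e1 := card_le_card hsub
            rw [card_erase_of_mem (mem_erase.2 ⟨hij.symm, mem_filter.2 ⟨hj, hwj⟩⟩),
              card_erase_of_mem (mem_filter.2 ⟨hi, hwi⟩)] at e1
            unfold dg
            omega
          refine step (s := 0) (J := tk v I E) (E' := sh w E) {v} ?_ ?_ ?_
          · intro l hl
            by_cases hvl : v ∈ E l
            · exact Or.inl ⟨v, hvl, mem_singleton_self _⟩
            · exact Or.inr ⟨mem_filter.2 ⟨hl, hvl⟩, erase_subset _ _⟩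
          · rw [card_singleton]
            have g5 : 1 ≤ dg 4 w (tk v I E) E := by
              rcases hSJ k hk with h | h
              · have := dg_pos hk hwk h
                omega
              · exact dg_pos hk hwk h
            omega
          · exact hP _ _ ((U_sh_lt hwJ).trans (U_tk_lt hvU)) (Sz_sh hSJ)
        · push Not at h7
          refine take (s := 0) (g := 0) v {w} hvU ?_ ?_ ?_ ?_ (hP _ _ (U_tk_lt hvU) hSz.tk)
          · rw [mem_singleton]
            exact hvw
          · intro c hc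
            rw [mem_singleton.1 hc]
            exact hwU
          · intro c hc k hk hck
            rw [mem_singleton.1 hc] at hck
            by_contra hvk
            exact h7 k (mem_filter.2 ⟨hk, hvk⟩) hck
          · rw [card_singleton, sum_wt hS]
            omega
      · exact key w v hwi hwj hvi hvj hvw.symm (by omega)
      · exact key w v hwi hwj hvi hvj hvw.symm (by omega)
    · exact key v w hvi hvj hwi hwj hvw (by omega)
    · exact key v w hvi hvj hwi hwj hvw (by omega)
  -- (6)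
  by_cases h6 : Dft I E
  · exact (hyp hS h5 h6).mono (Nat.zero_le _)
  -- (7)
  rcases I.eq_empty_or_nonempty with hI | ⟨i, hi⟩
  · refine ⟨∅, ?_, ?_⟩
    · intro i hi
      rw [hI] at hi
      exact absurd hi (notMem_empty _)
    · rw [card_empty]
      omega
  have h30 : ∀ j ∈ I, (E j).card = 4 → ∀ x ∈ E j, (I.filter (fun k => x ∈ E k)).card = 3 := by
    intro j hj hc x hx
    by_contra hne
    exact h6 (Or.inl ⟨j, hj, hc, x, hx, hne⟩)
  have hno3 : ∀ j ∈ I, (E j).card = 4 := by
    intro j hj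
    rcases hS j hj with h3 | h4'
    · exfalso
      have : (E j).Nonempty := by
        rw [← card_pos]
        omega
      obtain ⟨x, hx⟩ := this
      have hxU : x ∈ U I E := mem_U.2 ⟨j, hj, hx⟩
      have e1 := dg_pos hj hx h3
      have e2 := deg_eq (v := x) hS
      have e3 : 2 ≤ (I.filter (fun k => x ∈ E k)).card := by
        rcases hty x hxU with h | h | h <;> omega
      obtain ⟨k, hk, hkj⟩ := exists_mem_ne (by omega : 1 < (I.filter (fun k => x ∈ E k)).card) j
      obtain ⟨hkI, hxk⟩ := mem_filter.1 hk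
      exact h6 (Or.inr ⟨j, hj, h3, k, hkI, hkj.symm, x, hx, hxk⟩)
    · exact h4'
  have hc4 := hno3 i hi
  obtain ⟨v, hv⟩ : (E i).Nonempty := by
    rw [← card_pos]
    omega
  obtain ⟨x, hx, hxv⟩ := exists_mem_ne (by omega : 1 < (E i).card) v
  have hvU : v ∈ U I E := mem_U.2 ⟨i, hi, hv⟩
  have hxU : x ∈ U I E := mem_U.2 ⟨i, hi, hx⟩
  have hdx := h30 i hi hc4 x hx
  have hdv := h30 i hi hc4 v hv
  have ev := deg_eq (v := v) hS
  have tv : dg 4 v I E = 3 ∧ dg 3 v I E = 0 := by
    rcases hty v hvU with h | h | h <;> omega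
  have g1 := W_tk v ∅ hvU (notMem_empty _) (fun a ha => absurd ha (notMem_empty _))
    (fun a ha => absurd ha (notMem_empty _))
  rw [card_empty, sum_wt hS] at g1
  have hec : ((I.filter (fun k => x ∈ E k)).erase i).card = 2 := by
    rw [card_erase_of_mem (mem_filter.2 ⟨hi, hx⟩), hdx]
  obtain ⟨k, hk⟩ : ((I.filter (fun k => x ∈ E k)).erase i).Nonempty := by
    rw [← card_pos]
    omega
  obtain ⟨hki, hk2⟩ := mem_erase.1 hk
  obtain ⟨hkI, hxk⟩ := mem_filter.1 hk2
  have hvk : v ∉ E k := by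
    intro hvk
    exact hxv (h5 i hi k hkI hki.symm x hx hxk v hv hvk)
  have hkJ : k ∈ tk v I E := mem_filter.2 ⟨hkI, hvk⟩
  have hD : Dft (tk v I E) E := by
    refine Or.inl ⟨k, hkJ, hno3 k hkI, x, hxk, ?_⟩
    have hsub : (tk v I E).filter (fun k => x ∈ E k) ⊆ (I.filter (fun k => x ∈ E k)).erase i := by
      intro l hl
      obtain ⟨hl1, hl2⟩ := mem_filter.1 hl
      obtain ⟨hl3, hl4⟩ := mem_filter.1 hl1
      refine mem_erase.2 ⟨?_, mem_filter.2 ⟨hl3, hl2⟩⟩
      rintro rfl
      exact hl4 hv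
    have := card_le_card hsub
    omega
  refine step (s := 1) (J := tk v I E) (E' := E) {v} ?_ ?_ (hL _ _ (U_tk_lt hvU) hS.tk h5.tk hD)
  · intro l hl
    by_cases hvl : v ∈ E l
    · exact Or.inl ⟨v, hvl, mem_singleton_self _⟩
    · exact Or.inr ⟨mem_filter.2 ⟨hl, hvl⟩, subset_rfl⟩
  · rw [card_singleton]
    omega

end Pool.Agent.Run7.h270.DOMP
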